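import Pool.Agent.Y267.MX.Main
import Pool.Agent.Y267.MX.A
import Pool.Agent.Y267.MX.C
import Pool.Agent.Y267.MX.E
import Pool.Agent.Y267.MX.F
import Pool.Agent.Y486.MX.G
import Pool.Agent.Y908.MX.B
import Pool.Agent.Y908.MX.D

/-!
# MP_2c43e6_an: the one-supremum mixed bound fails in every dimension and for every exponent

Stronger form of `LogFactor` (`n = 1`, `p = 2`): for every `n ≥ 1` and every `1 < p < ∞` there are
weights `w_k ∈ A_p` on `ℝ^n` with `‖M‖_{L^p(w_k)} / [σ_k]_{(A_{p'})^{1/p'}(A_∞)^{1/p}} → ∞`, and this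
quotient is at least a constant times `Φ([σ_k]_{A_{p'}})^{1/p}`, so the known factor is optimal for
all `n` and `p`.
-/

open MeasureTheory Set Filter Topology
open scoped ENNReal NNReal

namespace Pool.Agent.Results.MP_2c43e6_an.AllExponentsDimensions

/-- A weight: a nonnegative locally integrable function. -/
def IsWeight {n : ℕ} (w : (Fin n → ℝ) → ℝ) : Prop := (∀ x, 0 ≤ w x) ∧ LocallyIntegrable w volume

/-- A nonnegative real function regarded as an extended nonnegative function. -/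
noncomputable def toE {n : ℕ} (v : (Fin n → ℝ) → ℝ) : (Fin n → ℝ) → ℝ≥0∞ :=
  fun x => ENNReal.ofReal (v x)

/-- The conjugate exponent `p' = p / (p - 1)`. -/
noncomputable def conjExp (p : ℝ) : ℝ := p / (p - 1)

/-- The dual weight `σ = w^{1 - p'}`. -/
noncomputable def dualWeight {n : ℕ} (p : ℝ) (w : (Fin n → ℝ) → ℝ) : (Fin n → ℝ) → ℝ :=
  fun x => w x ^ (1 - conjExp p)

/-- Closed cubes with sides parallel to the axes. -/
def IsCube {n : ℕ} (Q : Set (Fin n → ℝ)) : Prop :=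
  ∃ (a : Fin n → ℝ) (l : ℝ), 0 < l ∧ Q = {x | ∀ i, a i ≤ x i ∧ x i ≤ a i + l}

/-- The average `⟨f⟩_Q`. -/
noncomputable def avg {n : ℕ} (f : (Fin n → ℝ) → ℝ≥0∞) (Q : Set (Fin n → ℝ)) : ℝ≥0∞ :=
  (volume Q)⁻¹ * ∫⁻ y in Q, f y

/-- The Hardy-Littlewood maximal function `Mf(x) = sup_{Q ∋ x} ⟨f⟩_Q` of `f ≥ 0`. -/
noncomputable def maxFn {n : ℕ} (f : (Fin n → ℝ) → ℝ≥0∞) (x : Fin n → ℝ) : ℝ≥0∞ :=
  ⨆ (Q : Set (Fin n → ℝ)) (_ : IsCube Q) (_ : x ∈ Q), avg f Q

/-- `A_q(v, Q) = ⟨v⟩_Q ⟨v^{-1/(q-1)}⟩_Q^{q-1}`. -/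
noncomputable def Aq {n : ℕ} (q : ℝ) (v : (Fin n → ℝ) → ℝ) (Q : Set (Fin n → ℝ)) : ℝ≥0∞ :=
  avg (toE v) Q * avg (toE fun x => v x ^ (-1 / (q - 1))) Q ^ (q - 1)

/-- `A_∞(v, Q) = v(Q)⁻¹ ∫_Q M(v χ_Q)`. -/
noncomputable def Ainf {n : ℕ} (v : (Fin n → ℝ) → ℝ) (Q : Set (Fin n → ℝ)) : ℝ≥0∞ :=
  (∫⁻ x in Q, toE v x)⁻¹ * ∫⁻ x in Q, maxFn (Q.indicator (toE v)) x

/-- `[v]_{A_q} = sup_Q A_q(v, Q)`. -/
noncomputable def AqConst {n : ℕ} (q : ℝ) (v : (Fin n → ℝ) → ℝ) : ℝ≥0∞ :=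
  ⨆ (Q : Set (Fin n → ℝ)) (_ : IsCube Q), Aq q v Q

/-- `[v]_{(A_q)^α (A_∞)^β} = sup_Q A_q(v, Q)^α A_∞(v, Q)^β`. -/
noncomputable def oneSup {n : ℕ} (q α β : ℝ) (v : (Fin n → ℝ) → ℝ) : ℝ≥0∞ :=
  ⨆ (Q : Set (Fin n → ℝ)) (_ : IsCube Q), Aq q v Q ^ α * Ainf v Q ^ β

/-- The norm `‖f‖_{L^p(w)} = (∫ f^p w)^{1/p}` of `f ≥ 0`. -/
noncomputable def lpNorm {n : ℕ} (p : ℝ) (w : (Fin n → ℝ) → ℝ) (f : (Fin n → ℝ) → ℝ≥0∞) : ℝ≥0∞ :=
  (∫⁻ x, f x ^ p * toE w x) ^ (1 / p)

/-- `‖M‖_{L^p(w)}`: the supremum of `‖Mf‖_{L^p(w)}` over measurable `f` with `‖f‖_{L^p(w)} = 1`. -/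
noncomputable def opNormM {n : ℕ} (p : ℝ) (w : (Fin n → ℝ) → ℝ) : ℝ≥0∞ :=
  ⨆ (f : (Fin n → ℝ) → ℝ) (_ : Measurable f) (_ : lpNorm p w (fun x => ‖f x‖ₑ) = 1),
    lpNorm p w (maxFn fun x => ‖f x‖ₑ)

/-- The constant of the question, `[σ]_{(A_{p'})^{1/p'} (A_∞)^{1/p}}` with `σ = w^{1-p'}`. -/
noncomputable def mixedConst {n : ℕ} (p : ℝ) (w : (Fin n → ℝ) → ℝ) : ℝ≥0∞ :=
  oneSup (conjExp p) (1 / conjExp p) (1 / p) (dualWeight p w)

open Pool.Agent.Y267 (MX.hh MX.sg MX.wg MX.ss MX.rad MX.tf MX.maxN MX.ProfStm MX.AinfStm MX.ApStm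
  MX.MaxStm MX.TransStm MX.LowStm)

lemma isCube_iff {n : ℕ} (Q : Set (Fin n → ℝ)) : IsCube Q ↔ Pool.Agent.Y267.MX.IsCube Q := by
  constructor
  · rintro ⟨a, l, hl, rfl⟩
    refine ⟨fun i => a i + l / 2, l / 2, by positivity, ?_⟩
    ext x
    rw [Metric.mem_closedBall, dist_pi_le_iff (by positivity)]
    simp only [Set.mem_ofPred_eq, Real.dist_eq, abs_le]
    constructor
    · intro h i; constructor <;> linarith [(h i).1, (h i).2]
    · intro h i; constructor <;> linarith [(h i).1, (h i).2]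
  · rintro ⟨c, r, hr, rfl⟩
    refine ⟨fun i => c i - r, 2 * r, by positivity, ?_⟩
    ext x
    rw [Metric.mem_closedBall, dist_pi_le_iff hr.le]
    simp only [Set.mem_ofPred_eq, Real.dist_eq, abs_le]
    constructor
    · intro h i; constructor <;> linarith [(h i).1, (h i).2]
    · intro h i; constructor <;> linarith [(h i).1, (h i).2]

lemma maxFn_eq {n : ℕ} (f : (Fin n → ℝ) → ℝ≥0∞) (x : Fin n → ℝ) :
    maxFn f x = Pool.Agent.Y267.MX.maxN f x := by
  unfold maxFn Pool.Agent.Y267.MX.maxN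
  congr 1
  funext Q
  rw [isCube_iff]
  rfl

/-- the counterexample weight -/
noncomputable def W (m : ℕ) (q L : ℝ) : (Fin (m + 1) → ℝ) → ℝ :=
  fun x => (Pool.Agent.Y267.MX.hh q L |x 0|) ^ (-(1 / q))

open Pool.Agent.Y267.MX in
section
variable {q L : ℝ} {m : ℕ}

lemma conj_eq (hq : 0 < q) : conjExp (1 + 1 / q) = q + 1 := by
  unfold conjExp; field_simp; ring

lemma dual_W (hA : ProfStm) (hq : 0 < q) (hL : 1 ≤ L) :
    dualWeight (1 + 1 / q) (W m q L) = fun x => hh q L |x 0| := by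
  funext x
  unfold dualWeight W
  rw [conj_eq hq, ← Real.rpow_mul (hh_pos hA hq hL _).le]
  have : -(1 / q) * (1 - (q + 1)) = 1 := by field_simp; ring
  rw [this, Real.rpow_one]

lemma Aq_dual (hA : ProfStm) (hq : 0 < q) (hL : 1 ≤ L) (Q : Set (Fin (m + 1) → ℝ)) :
    Aq (conjExp (1 + 1 / q)) (dualWeight (1 + 1 / q) (W m q L)) Q =
      Pool.Agent.Y267.MX.avg (fun x => sg q L (x 0)) Q *
        Pool.Agent.Y267.MX.avg (fun x => wg q L (x 0)) Q ^ q := by
  unfold Aq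
  rw [dual_W hA hq hL, conj_eq hq]
  have e : q + 1 - 1 = q := by ring
  rw [e, show (-1 / q : ℝ) = -(1 / q) by ring]
  rfl

lemma Aq_W (hA : ProfStm) (hq : 0 < q) (hL : 1 ≤ L) (Q : Set (Fin (m + 1) → ℝ)) :
    Aq (1 + 1 / q) (W m q L) Q =
      Pool.Agent.Y267.MX.avg (fun x => wg q L (x 0)) Q *
        Pool.Agent.Y267.MX.avg (fun x => sg q L (x 0)) Q ^ (1 / q) := by
  unfold Aq
  have e : 1 + 1 / q - 1 = 1 / q := by ring
  rw [e]
  have e2 : (toE fun x => W m q L x ^ (-1 / (1 / q))) = fun x => sg q L (x 0) := by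
    funext x
    unfold toE sg W
    congr 1
    show (hh q L |x 0| ^ (-(1 / q))) ^ (-1 / (1 / q)) = hh q L |x 0|
    rw [← Real.rpow_mul (hh_pos hA hq hL _).le]
    have : -(1 / q) * (-1 / (1 / q)) = 1 := by field_simp
    rw [this, Real.rpow_one]
  rw [e2]
  rfl

lemma Ainf_dual (hA : ProfStm) (hq : 0 < q) (hL : 1 ≤ L) (Q : Set (Fin (m + 1) → ℝ)) :
    Ainf (dualWeight (1 + 1 / q) (W m q L)) Q =
      (∫⁻ x in Q, sg q L (x 0))⁻¹ *
      ∫⁻ x in Q, maxN (Q.indicator (fun y : Fin (m + 1) → ℝ => sg q L (y 0))) x := by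
  unfold Ainf
  rw [dual_W hA hq hL]
  congr 1
  apply lintegral_congr
  intro x
  rw [maxFn_eq]
  rfl

lemma mixed_le (hA : ProfStm) (hC : AinfStm) (hD : ApStm) (hF : MaxStm) (hE : TransStm)
    (hq : 0 < q) (hL : 1 ≤ L) :
    mixedConst (1 + 1 / q) (W m q L) ≤
      ENNReal.ofReal (40 * 24 ^ (1 / q) * (q + 1 + L) ^ (1 + 1 / q)) ^ (1 / (1 + 1 / q)) := by
  unfold mixedConst oneSup
  refine iSup_le fun Q => iSup_le fun hQ => ?_
  obtain ⟨c, r, hr, rfl⟩ := (isCube_iff Q).1 hQ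
  rw [Aq_dual hA hq hL, Ainf_dual hA hq hL, conj_eq hq]
  exact mixed_cube hA hC hD hF hE hq hL c hr

lemma AqW_le (hA : ProfStm) (hD : ApStm) (hE : TransStm) (hq : 0 < q) (hL : 1 ≤ L) :
    AqConst (1 + 1 / q) (W m q L) ≤
      ENNReal.ofReal (24 ^ (1 / q) * (q + 1 + L) ^ (1 + 1 / q)) := by
  unfold AqConst
  refine iSup_le fun Q => iSup_le fun hQ => ?_
  obtain ⟨c, r, hr, rfl⟩ := (isCube_iff Q).1 hQ
  rw [Aq_W hA hq hL]
  refine (ap_cube hA hD hE hq hL c hr).trans (ENNReal.ofReal_le_ofReal ?_)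
  apply div_le_self _ (one_le_ss hA hq hL _)
  have := tpos hq hL
  positivity

lemma AqDual_le (hA : ProfStm) (hD : ApStm) (hE : TransStm) (hq : 0 < q) (hL : 1 ≤ L) :
    AqConst (conjExp (1 + 1 / q)) (dualWeight (1 + 1 / q) (W m q L)) ≤
      ENNReal.ofReal (24 * (q + 1 + L) ^ (q + 1)) := by
  unfold AqConst
  have hT := tpos hq hL
  refine iSup_le fun Q => iSup_le fun hQ => ?_
  obtain ⟨c, r, hr, rfl⟩ := (isCube_iff Q).1 hQ
  rw [Aq_dual hA hq hL]
  have h1 := ap_cube hA hD hE hq hL c hr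
  set A := Pool.Agent.Y267.MX.avg (fun x : Fin (m + 1) → ℝ => sg q L (x 0)) (Metric.closedBall c r)
  set B := Pool.Agent.Y267.MX.avg (fun x : Fin (m + 1) → ℝ => wg q L (x 0)) (Metric.closedBall c r)
  have e : A * B ^ q = (B * A ^ (1 / q)) ^ q := by
    rw [ENNReal.mul_rpow_of_nonneg _ _ hq.le, ← ENNReal.rpow_mul,
      show 1 / q * q = 1 by field_simp, ENNReal.rpow_one, mul_comm]
  rw [e]
  refine (ENNReal.rpow_le_rpow h1 hq.le).trans ?_
  rw [ENNReal.ofReal_rpow_of_nonneg (by have := one_le_ss hA hq hL (rad (c 0 - r) (c 0 + r)); positivity) hq.le]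
  apply ENNReal.ofReal_le_ofReal
  have h2 : 24 ^ (1 / q) * (q + 1 + L) ^ (1 + 1 / q) / ss q L (rad (c 0 - r) (c 0 + r)) ≤
      24 ^ (1 / q) * (q + 1 + L) ^ (1 + 1 / q) := by
    apply div_le_self _ (one_le_ss hA hq hL _)
    positivity
  refine (Real.rpow_le_rpow (by have := one_le_ss hA hq hL (rad (c 0 - r) (c 0 + r)); positivity) h2 hq.le).trans
    (le_of_eq ?_)
  rw [Real.mul_rpow (by positivity) (by positivity), ← Real.rpow_mul (by norm_num),
    ← Real.rpow_mul (by positivity), show 1 / q * q = 1 by field_simp, Real.rpow_one,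
    show (1 + 1 / q) * q = q + 1 by field_simp]

/-- the unit cube -/
noncomputable def cc (m : ℕ) : Fin (m + 1) → ℝ := fun _ => 1 / 2

lemma AqDual_ge (hA : ProfStm) (hE : TransStm) (hq : 0 < q) (hL : 1 ≤ L)
    (hTL : q + 1 + L ≤ Real.exp L) :
    ENNReal.ofReal ((1 / 2) ^ q * ((q + 1 + L) / 8)) ≤
      AqConst (conjExp (1 + 1 / q)) (dualWeight (1 + 1 / q) (W m q L)) := by
  unfold AqConst
  have hT := tpos hq hL
  refine le_trans ?_ (le_iSup_of_le (Metric.closedBall (cc m) (1 / 2)) (le_iSup_of_le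
    ((isCube_iff _).2 ⟨cc m, 1 / 2, by norm_num, rfl⟩) le_rfl))
  rw [Aq_dual hA hq hL]
  obtain ⟨h1, -⟩ := hE m (cc m) (1 / 2) (by norm_num)
  rw [(h1 _ (sg_meas hA hq hL)).1, (h1 _ (wg_meas hA hq hL)).1]
  have ec : Icc (cc m 0 - 1 / 2) (cc m 0 + 1 / 2) = Icc (0 : ℝ) 1 := by
    unfold cc; norm_num
  rw [ec]
  have hv : volume (Icc (0 : ℝ) 1) = 1 := by rw [Real.volume_Icc]; simp
  have e1 := Real.exp_pos (-L)
  have e0 : Real.exp (-L) ≤ 1 := by
    rw [Real.exp_le_one_iff]; linarith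
  obtain ⟨-, -, hanti, hdbl, hone, -, hcore, ⟨-, hE0⟩, -, -⟩ := hA q L hq hL
  have hs : 1 ≤ Pool.Agent.Y267.MX.avg (sg q L) (Icc 0 1) := by
    unfold Pool.Agent.Y267.MX.avg
    rw [hv, inv_one, one_mul]
    calc (1 : ℝ≥0∞) = ENNReal.ofReal (Real.exp L) * volume (Icc (0 : ℝ) (Real.exp (-L))) := by
          rw [Real.volume_Icc, ← ENNReal.ofReal_mul (by positivity), sub_zero, ← Real.exp_add]
          simp
      _ = ∫⁻ _ in Icc (0 : ℝ) (Real.exp (-L)), ENNReal.ofReal (Real.exp L) :=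
          (setLIntegral_const _ _).symm
      _ ≤ ∫⁻ x in Icc (0 : ℝ) (Real.exp (-L)), sg q L x := by
          apply setLIntegral_mono' measurableSet_Icc
          intro x hx
          unfold sg
          apply ENNReal.ofReal_le_ofReal
          rw [abs_of_nonneg hx.1, hcore x hx.2]
          exact hE0
      _ ≤ ∫⁻ x in Icc (0 : ℝ) 1, sg q L x := lintegral_mono_set (Icc_subset_Icc le_rfl e0)
  have hw : ENNReal.ofReal (1 / 2 * ((8 / (q + 1 + L)) ^ (-(1 / q)))) ≤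
      Pool.Agent.Y267.MX.avg (wg q L) (Icc 0 1) := by
    unfold Pool.Agent.Y267.MX.avg
    rw [hv, inv_one, one_mul]
    calc ENNReal.ofReal (1 / 2 * ((8 / (q + 1 + L)) ^ (-(1 / q))))
        = ∫⁻ _ in Icc (1 / 2 : ℝ) 1, ENNReal.ofReal ((8 / (q + 1 + L)) ^ (-(1 / q))) := by
          rw [setLIntegral_const, Real.volume_Icc, ← ENNReal.ofReal_mul (by positivity)]
          congr 1; ring
      _ ≤ ∫⁻ x in Icc (1 / 2 : ℝ) 1, wg q L x := by
          apply setLIntegral_mono' measurableSet_Icc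
          intro x hx
          unfold wg
          apply ENNReal.ofReal_le_ofReal
          have hx0 : 0 ≤ x := by linarith [hx.1]
          rw [abs_of_nonneg hx0]
          apply Real.rpow_le_rpow_of_nonpos (hh_pos hA hq hL _) _ (by
            have : 0 < 1 / q := by positivity
            linarith)
          calc hh q L x ≤ hh q L (1 / 2) := hanti _ _ hx.1
            _ ≤ 4 * hh q L 1 := hdbl 1 (by norm_num)
            _ = 4 * (Real.exp (-L) + (q + 1 + L)⁻¹) := by rw [hone 1 le_rfl]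
            _ ≤ 4 * ((q + 1 + L)⁻¹ + (q + 1 + L)⁻¹) := by
                have : Real.exp (-L) ≤ (q + 1 + L)⁻¹ := by
                  rw [Real.exp_neg]
                  exact inv_anti₀ (by positivity) hTL
                linarith
            _ = 8 / (q + 1 + L) := by ring
      _ ≤ ∫⁻ x in Icc (0 : ℝ) 1, wg q L x :=
          lintegral_mono_set (Icc_subset_Icc (by norm_num) le_rfl)
  calc ENNReal.ofReal ((1 / 2) ^ q * ((q + 1 + L) / 8))
      = 1 * ENNReal.ofReal (1 / 2 * ((8 / (q + 1 + L)) ^ (-(1 / q)))) ^ q := by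
        rw [one_mul, ENNReal.ofReal_rpow_of_nonneg (by positivity) hq.le]
        congr 1
        rw [Real.mul_rpow (by norm_num) (by positivity), ← Real.rpow_mul (by positivity),
          show -(1 / q) * q = -1 by field_simp, Real.rpow_neg_one, inv_div]
    _ ≤ _ := mul_le_mul' hs (ENNReal.rpow_le_rpow hw hq.le)

lemma mixed_pos (hA : ProfStm) (hE : TransStm) (hq : 0 < q) (hL : 1 ≤ L) : 0 < mixedConst (1 + 1 / q) (W m q L) := by
  have hT := tpos hq hL
  unfold mixedConst oneSup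
  refine lt_of_lt_of_le ?_ (le_iSup_of_le (Metric.closedBall (cc m) (1 / 2)) (le_iSup_of_le
    ((isCube_iff _).2 ⟨cc m, 1 / 2, by norm_num, rfl⟩) le_rfl))
  rw [conj_eq hq]
  set Q := Metric.closedBall (cc m) (1 / 2) with hQ
  have hr : (0 : ℝ) < 1 / 2 := by norm_num
  have hIcc : cc m 0 - 1 / 2 < cc m 0 + 1 / 2 := by linarith
  obtain ⟨h1, -⟩ := hE m (cc m) (1 / 2) hr
  have hi := (h1 _ (sg_meas hA hq hL)).2
  have hV : ENNReal.ofReal ((2 * (1 / 2 : ℝ)) ^ m) = 1 := by norm_num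
  rw [hV, one_mul] at hi
  have hS0 : ∫⁻ x in Q, sg q L (x 0) ≠ 0 := by
    rw [hQ, hi]; exact (int_sg_pos hA hq hL hIcc).ne'
  have hSt : ∫⁻ x in Q, sg q L (x 0) ≠ ⊤ := by
    rw [hQ, hi]; exact (int_sg_lt hA hq hL).ne
  have hvol : volume Q = 1 := by
    rw [hQ, Real.volume_pi_closedBall _ hr.le]
    norm_num
  have hwS : ∫⁻ x in Q, wg q L (x 0) ≠ 0 := by
    rw [hQ, (h1 _ (wg_meas hA hq hL)).2, hV, one_mul, ← pos_iff_ne_zero,
      setLIntegral_pos_iff (wg_meas hA hq hL)]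
    have : Function.support (wg q L) ∩ Icc (cc m 0 - 1 / 2) (cc m 0 + 1 / 2) =
        Icc (cc m 0 - 1 / 2) (cc m 0 + 1 / 2) := by
      rw [inter_eq_right]
      intro x _
      exact (wg_pos hA hq hL x).ne'
    rw [this, Real.volume_Icc]
    simp
  apply ENNReal.mul_pos
  · apply ne_of_gt
    apply ENNReal.rpow_pos_of_nonneg _ (by positivity)
    rw [← conj_eq hq, Aq_dual hA hq hL]
    apply ENNReal.mul_pos
    · unfold Pool.Agent.Y267.MX.avg
      rw [hvol, inv_one, one_mul]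
      exact hS0
    · apply ne_of_gt
      apply ENNReal.rpow_pos_of_nonneg _ hq.le
      unfold Pool.Agent.Y267.MX.avg
      rw [hvol, inv_one, one_mul]
      exact pos_iff_ne_zero.2 hwS
  · apply ne_of_gt
    apply ENNReal.rpow_pos_of_nonneg _ (by positivity)
    rw [Ainf_dual hA hq hL]
    apply ENNReal.mul_pos
    · exact ENNReal.inv_ne_zero.2 hSt
    · apply ne_of_gt
      calc (0 : ℝ≥0∞) < ∫⁻ x in Q, sg q L (x 0) := pos_iff_ne_zero.2 hS0
        _ = ∫⁻ _ in Q, (∫⁻ x in Q, sg q L (x 0)) := by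
            rw [setLIntegral_const, hvol, mul_one]
        _ ≤ ∫⁻ x in Q, maxN (Q.indicator (fun y : Fin (m + 1) → ℝ => sg q L (y 0))) x := by
            apply setLIntegral_mono' measurableSet_closedBall
            intro x hx
            unfold maxN
            refine le_iSup_of_le Q (le_iSup_of_le ⟨cc m, 1 / 2, hr, rfl⟩ (le_iSup_of_le hx ?_))
            unfold Pool.Agent.Y267.MX.avg
            rw [hvol, inv_one, one_mul]
            apply le_of_eq
            apply setLIntegral_congr_fun measurableSet_closedBall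
            intro y hy
            show sg q L (y 0) = Q.indicator (fun y : Fin (m + 1) → ℝ => sg q L (y 0)) y
            rw [indicator_of_mem hy]

lemma W_pos (hA : ProfStm) (hq : 0 < q) (hL : 1 ≤ L) (x : Fin (m + 1) → ℝ) : 0 < W m q L x :=
  Real.rpow_pos_of_pos (hh_pos hA hq hL _) _

lemma W_meas (hA : ProfStm) (hq : 0 < q) (hL : 1 ≤ L) : Measurable (W m q L) :=
  ((hh_meas hA hq hL).comp (measurable_norm.comp (measurable_pi_apply 0))).pow_const _

lemma W_weight (hA : ProfStm) (hq : 0 < q) (hL : 1 ≤ L) : IsWeight (W m q L) := by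
  refine ⟨fun x => (W_pos hA hq hL x).le, ?_⟩
  have hT := tpos hq hL
  have hb : ∀ x, ‖W m q L x‖ ≤ ((q + 1 + L)⁻¹) ^ (-(1 / q)) := fun x => by
    rw [Real.norm_of_nonneg (W_pos hA hq hL x).le]
    apply Real.rpow_le_rpow_of_nonpos (by positivity) ((hA q L hq hL).2.2.2.2.2.1 _)
    have : 0 < 1 / q := by positivity
    linarith
  exact (locallyIntegrable_const (((q + 1 + L)⁻¹) ^ (-(1 / q)))).mono
    (W_meas hA hq hL).aestronglyMeasurable
    (Eventually.of_forall fun x => by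
      rw [Real.norm_of_nonneg (by positivity : (0:ℝ) ≤ ((q + 1 + L)⁻¹) ^ (-(1 / q)))]; exact hb x)

lemma tf_meas (L : ℝ) : Measurable (tf m L) := by
  unfold tf
  apply Measurable.indicator measurable_one
  have h1 : MeasurableSet {x : Fin (m + 1) → ℝ | |x 0| < Real.exp (-L)} :=
    measurableSet_lt (measurable_norm.comp (measurable_pi_apply 0)) measurable_const
  have h2 : MeasurableSet {x : Fin (m + 1) → ℝ | ∀ i : Fin m, |x i.succ| ≤ 2} := by
    rw [Set.ofPred_forall]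
    exact MeasurableSet.iInter fun i =>
      measurableSet_le (measurable_norm.comp (measurable_pi_apply i.succ)) measurable_const
  exact h1.inter h2

lemma maxN_const_mul (κ : ℝ≥0∞) {f : (Fin (m + 1) → ℝ) → ℝ≥0∞} (hf : Measurable f)
    (x : Fin (m + 1) → ℝ) : maxN (fun y => κ * f y) x = κ * maxN f x := by
  unfold maxN
  simp only [ENNReal.mul_iSup]
  congr 1
  funext Q
  congr 1
  funext _
  congr 1
  funext _
  unfold Pool.Agent.Y267.MX.avg
  rw [lintegral_const_mul κ hf]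
  ring

lemma op_ge (hG : LowStm) (hq : 0 < q) (hL : 1 ≤ L)
    (hs : (q + 1) + (q + 1) * Real.log (q + 1 + L) ≤ Real.sqrt (q + 1 + L)) :
    ENNReal.ofReal ((1 / 2) ^ (m + 1) * 2 ^ (-(1 / q)) * (q + 1 + L) ^ (1 + 1 / q) *
      Real.log (q + 1 + L)) ^ (1 / (1 + 1 / q)) ≤ opNormM (1 + 1 / q) (W m q L) := by
  have hT := tpos hq hL
  have hp : 0 < 1 + 1 / q := by positivity
  obtain ⟨g1, g2, g3⟩ := hG m q L hq hL
  have g3 := g3 hs
  set N := ∫⁻ x : Fin (m + 1) → ℝ, tf m L x ^ (1 + 1 / q) * wg q L (x 0) with hN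
  set R := ∫⁻ x : Fin (m + 1) → ℝ, maxN (tf m L) x ^ (1 + 1 / q) * wg q L (x 0) with hR
  have hNt : N ≠ ⊤ := ne_top_of_le_ne_top ENNReal.ofReal_ne_top g1
  have hN0 : N ≠ 0 := g2.ne'
  set κ : ℝ := (N.toReal) ^ (-(1 / (1 + 1 / q))) with hκ
  have hNr : 0 < N.toReal := ENNReal.toReal_pos hN0 hNt
  have hκ0 : 0 < κ := Real.rpow_pos_of_pos hNr _
  have hκp : ENNReal.ofReal κ ^ (1 + 1 / q) = N⁻¹ := by
    rw [ENNReal.ofReal_rpow_of_nonneg hκ0.le hp.le, hκ, ← Real.rpow_mul hNr.le,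
      show -(1 / (1 + 1 / q)) * (1 + 1 / q) = -1 by field_simp, Real.rpow_neg_one,
      ENNReal.ofReal_inv_of_pos hNr, ENNReal.ofReal_toReal hNt]
  set f : (Fin (m + 1) → ℝ) → ℝ := fun x => κ * (tf m L x).toReal with hf
  have hfm : Measurable f := (tf_meas L).ennreal_toReal.const_mul κ
  have hfe : (fun x => ‖f x‖ₑ) = fun x => ENNReal.ofReal κ * tf m L x := by
    funext x
    have h0 : tf m L x ≠ ⊤ := by
      unfold tf
      by_cases hx : x ∈ {x : Fin (m + 1) → ℝ | |x 0| < Real.exp (-L) ∧ ∀ i : Fin m, |x i.succ| ≤ 2}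
      · rw [indicator_of_mem hx]; simp
      · rw [indicator_of_notMem hx]; simp
    rw [hf, ← ofReal_norm, Real.norm_of_nonneg (by positivity),
      ENNReal.ofReal_mul hκ0.le, ENNReal.ofReal_toReal h0]
  have hpow : ∀ g : (Fin (m + 1) → ℝ) → ℝ≥0∞, ∫⁻ x, (ENNReal.ofReal κ * g x) ^ (1 + 1 / q) *
      toE (W m q L) x = N⁻¹ * ∫⁻ x, g x ^ (1 + 1 / q) * wg q L (x 0) := by
    intro g
    rw [← lintegral_const_mul' _ _ (ENNReal.inv_ne_top.2 hN0)]
    apply lintegral_congr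
    intro x
    rw [ENNReal.mul_rpow_of_nonneg _ _ hp.le, hκp, mul_assoc]
    rfl
  have h1 : lpNorm (1 + 1 / q) (W m q L) (fun x => ‖f x‖ₑ) = 1 := by
    unfold lpNorm
    rw [hfe, hpow, ← hN, ENNReal.inv_mul_cancel hN0 hNt, ENNReal.one_rpow]
  unfold opNormM
  refine le_trans ?_ (le_iSup_of_le f (le_iSup_of_le hfm (le_iSup_of_le h1 le_rfl)))
  unfold lpNorm
  apply ENNReal.rpow_le_rpow _ (by positivity)
  have hmax : ∀ x, maxFn (fun x => ‖f x‖ₑ) x = ENNReal.ofReal κ * maxN (tf m L) x := by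
    intro x
    rw [maxFn_eq, hfe, maxN_const_mul _ (tf_meas L)]
  have : ∫⁻ x, maxFn (fun x => ‖f x‖ₑ) x ^ (1 + 1 / q) * toE (W m q L) x = N⁻¹ * R := by
    rw [hR, ← hpow]
    apply lintegral_congr
    intro x
    rw [hmax]
  rw [this]
  have e1 := Real.exp_pos (-L)
  calc ENNReal.ofReal ((1 / 2) ^ (m + 1) * 2 ^ (-(1 / q)) * (q + 1 + L) ^ (1 + 1 / q) *
      Real.log (q + 1 + L))
      = (ENNReal.ofReal (2 * 4 ^ m * Real.exp (-L) * Real.exp (-L) ^ (1 / q)))⁻¹ *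
        ENNReal.ofReal (2 ^ m * 2 ^ (-(1 / q)) * Real.exp (-L) ^ (1 + 1 / q) *
        (q + 1 + L) ^ (1 + 1 / q) * Real.log (q + 1 + L)) := by
        rw [← ENNReal.ofReal_inv_of_pos (by positivity), ← ENNReal.ofReal_mul (by positivity)]
        congr 1
        rw [Real.rpow_add e1 1 (1 / q), Real.rpow_one, show (4 : ℝ) = 2 * 2 by norm_num, mul_pow]
        have h2 : (0:ℝ) < 2 ^ m := by positivity
        have h3 : (0:ℝ) < Real.exp (-L) ^ (1 / q) := by positivity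
        rw [div_pow, one_pow, pow_succ]
        field_simp
    _ ≤ N⁻¹ * R := mul_le_mul' (ENNReal.inv_le_inv.2 g1) g3

/-- the key quantitative inequality, with `c` independent of `L` -/
lemma main_ineq (hA : ProfStm) (hC : AinfStm) (hD : ApStm) (hF : MaxStm) (hE : TransStm)
    (hG : LowStm) (hq : 0 < q) (hL : 1 ≤ L)
    (hs : (q + 1) + (q + 1) * Real.log (q + 1 + L) ≤ Real.sqrt (q + 1 + L))
    (hTL : q + 1 + L ≤ Real.exp L) :
    ENNReal.ofReal (((1 / 2) ^ (m + 1) * 2 ^ (-(1 / q)) / (40 * 24 ^ (1 / q) * (q + 9))) ^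
        (1 / (1 + 1 / q))) *
      ENNReal.ofReal (1 + Real.log (AqConst (conjExp (1 + 1 / q))
        (dualWeight (1 + 1 / q) (W m q L))).toReal) ^ (1 / (1 + 1 / q))
      * mixedConst (1 + 1 / q) (W m q L) ≤ opNormM (1 + 1 / q) (W m q L) := by
  refine le_trans ?_ (op_ge hG hq hL hs)
  have hT := tpos hq hL
  have hT2 : 2 ≤ q + 1 + L := by linarith
  have hp : 0 < 1 + 1 / q := by positivity
  have hlog2 : Real.log 2 ≤ Real.log (q + 1 + L) := Real.log_le_log (by norm_num) hT2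
  have hl2 : (0.69 : ℝ) ≤ Real.log 2 := by
    have := Real.log_two_gt_d9; linarith
  set T := q + 1 + L with hTdef
  have hlog : Real.log (AqConst (conjExp (1 + 1 / q)) (dualWeight (1 + 1 / q) (W m q L))).toReal ≤
      Real.log (24 * T ^ (q + 1)) := by
    have h1 : (AqConst (conjExp (1 + 1 / q)) (dualWeight (1 + 1 / q) (W m q L))).toReal ≤
        24 * T ^ (q + 1) := by
      apply ENNReal.toReal_le_of_le_ofReal (by positivity)
      exact AqDual_le hA hD hE hq hL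
    have h2 : 0 < (AqConst (conjExp (1 + 1 / q)) (dualWeight (1 + 1 / q) (W m q L))).toReal := by
      apply ENNReal.toReal_pos
      · apply ne_of_gt
        refine lt_of_lt_of_le ?_ (AqDual_ge hA hE hq hL hTL)
        rw [ENNReal.ofReal_pos]; positivity
      · exact ne_top_of_le_ne_top ENNReal.ofReal_ne_top (AqDual_le hA hD hE hq hL)
    exact Real.log_le_log h2 h1
  have hlog3 : Real.log (24 * T ^ (q + 1)) = Real.log 24 + (q + 1) * Real.log T := by
    rw [Real.log_mul (by norm_num) (by positivity), Real.log_rpow (by linarith)]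
  have h24 : Real.log 24 ≤ 5 * Real.log 2 := by
    calc Real.log 24 ≤ Real.log (2 ^ 5) := Real.log_le_log (by norm_num) (by norm_num)
      _ = 5 * Real.log 2 := by rw [Real.log_pow]; norm_num
  have hfin : 1 + Real.log (AqConst (conjExp (1 + 1 / q))
      (dualWeight (1 + 1 / q) (W m q L))).toReal ≤ (q + 9) * Real.log T := by
    rw [hlog3] at hlog
    nlinarith
  have hlp : 0 < Real.log T := by linarith
  set K := (1 / 2 : ℝ) ^ (m + 1) * 2 ^ (-(1 / q)) with hK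
  have hK0 : 0 < K := by positivity
  calc ENNReal.ofReal ((K / (40 * 24 ^ (1 / q) * (q + 9))) ^ (1 / (1 + 1 / q))) *
      ENNReal.ofReal (1 + Real.log (AqConst (conjExp (1 + 1 / q))
        (dualWeight (1 + 1 / q) (W m q L))).toReal) ^ (1 / (1 + 1 / q))
      * mixedConst (1 + 1 / q) (W m q L)
      ≤ ENNReal.ofReal (K / (40 * 24 ^ (1 / q) * (q + 9))) ^ (1 / (1 + 1 / q)) *
        ENNReal.ofReal ((q + 9) * Real.log T) ^ (1 / (1 + 1 / q))
        * ENNReal.ofReal (40 * 24 ^ (1 / q) * T ^ (1 + 1 / q)) ^ (1 / (1 + 1 / q)) := by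
        gcongr
        · apply le_of_eq
          rw [ENNReal.ofReal_rpow_of_nonneg (by positivity) (by positivity)]
        · exact mixed_le hA hC hD hF hE hq hL
    _ = ENNReal.ofReal (K * T ^ (1 + 1 / q) * Real.log T) ^ (1 / (1 + 1 / q)) := by
        rw [← ENNReal.mul_rpow_of_nonneg _ _ (by positivity),
          ← ENNReal.mul_rpow_of_nonneg _ _ (by positivity), ← ENNReal.ofReal_mul (by positivity),
          ← ENNReal.ofReal_mul (by positivity)]
        congr 2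
        field_simp

lemma exists_start (hq : 0 < q) : ∃ K : ℕ, ∀ k : ℕ, 1 ≤ (K : ℝ) + k ∧
    (q + 1) + (q + 1) * Real.log (q + 1 + ((K : ℝ) + k)) ≤ Real.sqrt (q + 1 + ((K : ℝ) + k)) ∧
    q + 1 + ((K : ℝ) + k) ≤ Real.exp ((K : ℝ) + k) := by
  have h1 : ∀ᶠ t : ℝ in atTop, (q + 1) + (q + 1) * Real.log t ≤ Real.sqrt t := by
    have e1 : (fun t : ℝ => (q + 1) + (q + 1) * Real.log t) =o[atTop] fun t => t ^ (1 / 2 : ℝ) := by
      apply Asymptotics.IsLittleO.add
      · rw [Asymptotics.isLittleO_const_left]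
        right
        exact tendsto_norm_atTop_atTop.comp (tendsto_rpow_atTop (by norm_num))
      · exact (isLittleO_log_rpow_atTop (by norm_num)).const_mul_left _
    filter_upwards [e1.bound (show (0:ℝ) < 1 by norm_num), eventually_ge_atTop (1:ℝ)] with t ht ht1
    have h3 : 0 ≤ Real.log t := Real.log_nonneg ht1
    rw [Real.norm_of_nonneg (by positivity), Real.norm_of_nonneg (by positivity), one_mul,
      ← Real.sqrt_eq_rpow] at ht
    exact ht
  have h2 : ∀ᶠ t : ℝ in atTop, q + 1 + t ≤ Real.exp t := by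
    have := Real.tendsto_exp_div_pow_atTop 1
    filter_upwards [this.eventually_ge_atTop (q + 2), eventually_ge_atTop (1:ℝ)] with t ht ht1
    rw [pow_one, le_div_iff₀ (by linarith)] at ht
    nlinarith
  have h3 : ∀ᶠ t : ℝ in atTop, (q + 1) + (q + 1) * Real.log (q + 1 + t) ≤ Real.sqrt (q + 1 + t) :=
    (tendsto_atTop_add_const_left atTop (q + 1) tendsto_id).eventually h1
  obtain ⟨a, ha⟩ := (h2.and (h3.and (eventually_ge_atTop (1:ℝ)))).exists_forall_of_atTop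
  refine ⟨⌈a⌉₊, fun k => ?_⟩
  have hk : a ≤ (⌈a⌉₊ : ℝ) + k := by
    have := Nat.le_ceil a
    have h0 : (0:ℝ) ≤ k := Nat.cast_nonneg k
    linarith
  obtain ⟨x1, x2, x3⟩ := ha _ hk
  exact ⟨x3, x2, x1⟩

/-- the final theorem, from the blocks -/
theorem main (hA : ProfStm) (hC : AinfStm) (hD : ApStm) (hF : MaxStm) (hE : TransStm)
    (hG : LowStm) (n : ℕ) (hn : 1 ≤ n) (p : ℝ) (hp1 : 1 < p) :
    ∃ w : ℕ → (Fin n → ℝ) → ℝ,
      (∀ k x, 0 < w k x) ∧ (∀ k, IsWeight (w k)) ∧ (∀ k, AqConst p (w k) < ⊤) ∧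
      (∀ k, 0 < mixedConst p (w k) ∧ mixedConst p (w k) < ⊤) ∧
      Tendsto (fun k => opNormM p (w k) / mixedConst p (w k)) atTop (𝓝 ⊤) ∧
      Tendsto (fun k => AqConst (conjExp p) (dualWeight p (w k))) atTop (𝓝 ⊤) ∧
      ∃ c : ℝ, 0 < c ∧ ∀ k, ENNReal.ofReal c *
        ENNReal.ofReal (1 + Real.log (AqConst (conjExp p) (dualWeight p (w k))).toReal) ^ (1 / p)
        * mixedConst p (w k) ≤ opNormM p (w k) := by
  obtain ⟨m, rfl⟩ : ∃ m, n = m + 1 := ⟨n - 1, by omega⟩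
  obtain ⟨q, hq, rfl⟩ : ∃ q : ℝ, 0 < q ∧ p = 1 + 1 / q :=
    ⟨1 / (p - 1), by have : 0 < p - 1 := by linarith
                     positivity, by field_simp; ring⟩
  clear hp1
  obtain ⟨K, hK⟩ := exists_start hq
  have hp : 0 < 1 + 1 / q := by positivity
  set Lk : ℕ → ℝ := fun k => (K : ℝ) + k with hLk
  have hlim0 : Tendsto Lk atTop atTop :=
    tendsto_atTop_add_const_left atTop (K : ℝ) tendsto_natCast_atTop_atTop
  have hlim1 : Tendsto (fun k => q + 1 + Lk k) atTop atTop :=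
    tendsto_atTop_add_const_left atTop (q + 1) hlim0
  have hfin : ∀ k, mixedConst (1 + 1 / q) (W m q (Lk k)) < ⊤ := fun k =>
    lt_of_le_of_lt (mixed_le hA hC hD hF hE hq (hK k).1)
      (ENNReal.rpow_lt_top_of_nonneg (by positivity) ENNReal.ofReal_ne_top)
  refine ⟨fun k => W m q (Lk k), fun k x => W_pos hA hq (hK k).1 x,
    fun k => W_weight hA hq (hK k).1,
    fun k => lt_of_le_of_lt (AqW_le hA hD hE hq (hK k).1) ENNReal.ofReal_lt_top,
    fun k => ⟨mixed_pos hA hE hq (hK k).1, hfin k⟩, ?_, ?_,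
    ⟨((1 / 2) ^ (m + 1) * 2 ^ (-(1 / q)) / (40 * 24 ^ (1 / q) * (q + 9))) ^
        (1 / (1 + 1 / q)), by positivity,
      fun k => main_ineq hA hC hD hF hE hG hq (hK k).1 (hK k).2.1 (hK k).2.2⟩⟩
  · set D : ℝ := (1 / 2) ^ (m + 1) * 2 ^ (-(1 / q)) / (40 * 24 ^ (1 / q)) with hD'
    have hD0 : 0 < D := by positivity
    have hlow : ∀ k : ℕ, ENNReal.ofReal (D * Real.log (q + 1 + Lk k)) ^ (1 / (1 + 1 / q)) ≤
        opNormM (1 + 1 / q) (W m q (Lk k)) / mixedConst (1 + 1 / q) (W m q (Lk k)) := by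
      intro k
      have h1 := mixed_le (m := m) hA hC hD hF hE hq (hK k).1
      have h2 := op_ge (m := m) hG hq (hK k).1 (hK k).2.1
      have hT := tpos hq (hK k).1
      have hlp : 0 ≤ Real.log (q + 1 + Lk k) := Real.log_nonneg hT
      rw [ENNReal.le_div_iff_mul_le (Or.inl (mixed_pos hA hE hq (hK k).1).ne')
        (Or.inl (hfin k).ne)]
      refine le_trans (mul_le_mul' le_rfl h1) (le_trans (le_of_eq ?_) h2)
      have hT' : (0:ℝ) < q + 1 + Lk k := by
        have : (1:ℝ) ≤ q + 1 + Lk k := hT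
        linarith
      rw [← ENNReal.mul_rpow_of_nonneg _ _ (by positivity), ← ENNReal.ofReal_mul (by positivity)]
      congr 2
      rw [hD']
      show _ * Real.log (q + 1 + Lk k) * (40 * 24 ^ (1 / q) * (q + 1 + Lk k) ^ (1 + 1 / q)) =
        (1 / 2) ^ (m + 1) * 2 ^ (-(1 / q)) * (q + 1 + Lk k) ^ (1 + 1 / q) * Real.log (q + 1 + Lk k)
      field_simp
    have hlim : Tendsto (fun k : ℕ =>
        ENNReal.ofReal (D * Real.log (q + 1 + Lk k)) ^ (1 / (1 + 1 / q))) atTop (𝓝 ⊤) := by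
      have h1 : Tendsto (fun k : ℕ => D * Real.log (q + 1 + Lk k)) atTop atTop :=
        (Real.tendsto_log_atTop.comp hlim1).const_mul_atTop hD0
      have h2 := ENNReal.tendsto_ofReal_atTop.comp h1
      have h3 := (ENNReal.continuous_rpow_const (y := (1 / (1 + 1 / q) : ℝ))).tendsto (⊤ : ℝ≥0∞)
      rw [ENNReal.top_rpow_of_pos (by positivity)] at h3
      exact h3.comp h2
    exact tendsto_nhds_top_mono' hlim hlow
  · have hlim : Tendsto (fun k : ℕ => ENNReal.ofReal ((1 / 2) ^ q * ((q + 1 + Lk k) / 8)))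
        atTop (𝓝 ⊤) := by
      apply ENNReal.tendsto_ofReal_atTop.comp
      apply Tendsto.const_mul_atTop (by positivity)
      exact Tendsto.atTop_div_const (by norm_num) hlim1
    exact tendsto_nhds_top_mono' hlim fun k => AqDual_ge hA hE hq (hK k).1 (hK k).2.2

end

/-- **The one-supremum mixed bound fails in every dimension and for every exponent, and the known
logarithmic factor has the right power.**  For every `n ≥ 1` and every `1 < p < ∞` there are positive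
weights `w_k ∈ A_p` on `ℝⁿ`, with `σ_k = w_k^{1-p'}` and
`m_k = [σ_k]_{(A_{p'})^{1/p'} (A_∞)^{1/p}}` positive and finite, such that

* `‖M‖_{L^p(w_k)} / m_k → ∞`,
* `[σ_k]_{A_{p'}} → ∞`, and for a constant `c > 0` and all `k`
  `c (1 + log [σ_k]_{A_{p'}})^{1/p} m_k ≤ ‖M‖_{L^p(w_k)}`. -/
theorem result (n : ℕ) (hn : 1 ≤ n) (p : ℝ) (hp1 : 1 < p) :
    ∃ w : ℕ → (Fin n → ℝ) → ℝ,
      (∀ k x, 0 < w k x) ∧ (∀ k, IsWeight (w k)) ∧ (∀ k, AqConst p (w k) < ⊤) ∧
      (∀ k, 0 < mixedConst p (w k) ∧ mixedConst p (w k) < ⊤) ∧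
      Tendsto (fun k => opNormM p (w k) / mixedConst p (w k)) atTop (𝓝 ⊤) ∧
      Tendsto (fun k => AqConst (conjExp p) (dualWeight p (w k))) atTop (𝓝 ⊤) ∧
      ∃ c : ℝ, 0 < c ∧ ∀ k, ENNReal.ofReal c *
        ENNReal.ofReal (1 + Real.log (AqConst (conjExp p) (dualWeight p (w k))).toReal) ^ (1 / p)
        * mixedConst p (w k) ≤ opNormM p (w k) :=
  main Pool.Agent.Y267.MX.profA
    (Pool.Agent.Y267.MX.ainfC Pool.Agent.Y267.MX.profA
      (Pool.Agent.Y908.MX.intB Pool.Agent.Y267.MX.profA))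
    (Pool.Agent.Y908.MX.apD Pool.Agent.Y267.MX.profA
      (Pool.Agent.Y908.MX.intB Pool.Agent.Y267.MX.profA))
    (Pool.Agent.Y267.MX.maxF Pool.Agent.Y267.MX.profA) Pool.Agent.Y267.MX.transE
    (Pool.Agent.Y486.MX.lowG Pool.Agent.Y267.MX.profA) n hn p hp1

end Pool.Agent.Results.MP_2c43e6_an.AllExponentsDimensions
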